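import Pool.Agent.H95.FC.Targets
import Pool.Agent.H61.FM.LF2

/-!
# MP_52e316_nt, board `fmx_modules`, row ALF2: the twisted `L`-function in terms of the forms
-/

set_option autoImplicit false

open MeasureTheory Set Filter NumberField
open Pool.Agent.H31.CN Pool.Agent.H89.FM Pool.Agent.H61.FM Pool.Agent.H89.FC Pool.Agent.H95.FC
open scoped Real nonZeroDivisors Matrix MatrixGroups

namespace Pool.Agent.H85.FC

theorem pf_LF2c (hLF1 : Pool.Agent.H95.FC.T_LF1c) (hEZA : Pool.Agent.H95.FC.T_EZAx)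
    (hFLS : Pool.Agent.H89.FM.T_FLS) (hFRA : Pool.Agent.H95.FC.T_FRA) :
    Pool.Agent.H95.FC.T_LF2c := by
  classical
  intro K _ _ D f m hIQ R b T W ψ F hDF hR hF n hn s hs0 hs1
  have hf : 1 ≤ f := hR.pos
  have hbase : ((f : ℂ) ^ 2 * D) ≠ 0 := by
    have hD : (D : ℂ) ≠ 0 := by exact_mod_cast hIQ.pos.ne'
    have hfc : (f : ℂ) ≠ 0 := by exact_mod_cast hR.pos.ne'
    exact mul_ne_zero (pow_ne_zero 2 hfc) hD
  have hn1 : 1 ≤ n := Nat.one_le_iff_ne_zero.mpr hn.ne_zero
  set k : ℕ := m.natAbs with hk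
  have hWd : Differentiable ℂ (fun s => EE f R b T W m ψ n s) := by
    unfold EE
    apply Differentiable.const_mul
    apply Differentiable.fun_sum
    intro c _
    apply Differentiable.fun_sum
    intro V hV
    apply Differentiable.const_mul
    apply Differentiable.fun_sum
    intro L hL
    have hL1 : L.index = n := ((hFLS n L hn1).1).mp (Finset.mem_filter.mp hL).1
    have hfd := R.fd c
    have hd : 0 < dsc (R.Q c) := by
      rw [hfd.2]
      exact_mod_cast hIQ.pos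
    have hy := (hFRA f (R.Q c) V (W c V) hf ((hDF.lt c).one V hV) hfd.1 hd).2.1
    exact (hEZA m n L _ _ hn1 hL1 hy).1
  have hDd : Differentiable ℂ (fun s : ℂ => ((f : ℂ) ^ 2 * D) ^ (s / 2)) := by
    intro s
    exact (differentiableAt_id.div_const 2).const_cpow (Or.inl hbase)
  have hPd : Differentiable ℂ (fun s : ℂ => (2 * (π : ℂ)) ^ (s + k)) := by
    intro s
    exact (differentiableAt_id.add_const (k : ℂ)).const_cpow
      (Or.inl Pool.Agent.H61.FM.two_pi_ne)
  have hGd : Differentiable ℂ (fun s : ℂ => (Complex.Gamma (s + k))⁻¹) :=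
    Complex.differentiable_one_div_Gamma.comp (differentiable_id.add_const (k : ℂ))
  set A : ℂ → ℂ := fun s => lc ψ n * (s * (s - 1) * ((f : ℂ) ^ 2 * D) ^ (s / 2) * F s) with hA
  set B : ℂ → ℂ := fun s => (2 * (π : ℂ)) ^ (s + k) * (Complex.Gamma (s + k))⁻¹ *
    EE f R b T W m ψ n s with hB
  have hAd : DifferentiableOn ℂ A {1}ᶜ := by
    apply DifferentiableOn.const_mul
    apply DifferentiableOn.mul
    · exact ((differentiable_id.mul (differentiable_id.sub_const 1)).mul hDd).differentiableOn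
    · exact hF.1
  have hBd : DifferentiableOn ℂ B {1}ᶜ := ((hPd.mul hGd).mul hWd).differentiableOn
  have hG : ∀ s : ℂ, 0 < s.re → Complex.Gamma (s + k) ≠ 0 := by
    intro s hs
    apply Complex.Gamma_ne_zero_of_re_pos
    rw [Complex.add_re, Complex.natCast_re]
    have : (0 : ℝ) ≤ k := Nat.cast_nonneg k
    linarith
  have h1 : ∀ s : ℂ, 1 < s.re → A s = B s := by
    intro s hs
    have h2 := hLF1 K D f m hIQ R b T W ψ F hDF hR hF n hn s hs
    have h3 := hG s (by linarith)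
    change lc ψ n * (s * (s - 1) * ((f : ℂ) ^ 2 * D) ^ (s / 2) * F s) = _ * _ * _
    rw [← h2]
    unfold gM
    have h4 := Pool.Agent.H61.FM.two_pi_mul (s + k)
    have h5 : (Complex.Gamma (s + k))⁻¹ * Complex.Gamma (s + k) = 1 := inv_mul_cancel₀ h3
    calc lc ψ n * (s * (s - 1) * ((f : ℂ) ^ 2 * D) ^ (s / 2) * F s)
        = lc ψ n * (s * (s - 1) * ((f : ℂ) ^ 2 * D) ^ (s / 2) * F s) *
          (((2 * (π : ℂ)) ^ (s + k) * (2 * (π : ℂ)) ^ (-(s + k))) *
          ((Complex.Gamma (s + k))⁻¹ * Complex.Gamma (s + k))) := by rw [h4, h5]; ring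
      _ = _ := by ring
  have h6 := Pool.Agent.H61.FM.eq_of_half hAd hBd h1 s hs1
  change lc ψ n * (s * (s - 1) * ((f : ℂ) ^ 2 * D) ^ (s / 2) * F s) = _ * _ * _ at h6
  unfold gM
  have h3 := hG s hs0
  have h4 := Pool.Agent.H61.FM.two_pi_mul (s + k)
  have h5 : (Complex.Gamma (s + k))⁻¹ * Complex.Gamma (s + k) = 1 := inv_mul_cancel₀ h3
  calc lc ψ n * (s * (s - 1) * Complex.Gamma (s + k) * (2 * (π : ℂ)) ^ (-(s + k)) *
        ((f : ℂ) ^ 2 * D) ^ (s / 2) * F s)
      = (lc ψ n * (s * (s - 1) * ((f : ℂ) ^ 2 * D) ^ (s / 2) * F s)) *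
        (Complex.Gamma (s + k) * (2 * (π : ℂ)) ^ (-(s + k))) := by ring
    _ = ((2 * (π : ℂ)) ^ (s + k) * (2 * (π : ℂ)) ^ (-(s + k))) *
        ((Complex.Gamma (s + k))⁻¹ * Complex.Gamma (s + k)) *
        EE f R b T W m ψ n s := by rw [h6]; ring
    _ = EE f R b T W m ψ n s := by rw [h4, h5]; ring

end Pool.Agent.H85.FC
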