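import Pool.Agent.H95.FC.Targets
import Pool.Agent.H61.FM.OBG

/-!
# MP_52e316_nt, board `fmx_modules`, row ARSS: representatives of the ideal classes for a given
embedding
-/

set_option autoImplicit false

open MeasureTheory Set Filter NumberField
open Pool.Agent.H31.CN Pool.Agent.H89.FM Pool.Agent.H61.FM Pool.Agent.H89.FC Pool.Agent.H95.FC
open scoped Real nonZeroDivisors Matrix MatrixGroups

namespace Pool.Agent.H85.FC

theorem pf_RSS : Pool.Agent.H95.FC.T_RSS := by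
  intro K _ _ D σ hIQ
  have hex : ∀ c : ClassGroup (𝓞 K), ∃ (I : (Ideal (𝓞 K))⁰) (α β : 𝓞 K) (Q : QF),
      ClassGroup.mk0 I = c ∧ Q ∈ FD D ∧ OB K σ I α β Q := by
    intro c
    obtain ⟨I, hI⟩ := ClassGroup.mk0_surjective c
    obtain ⟨α, β, Q, hQ, h⟩ := Pool.Agent.H61.FM.pf_OBG K D σ hIQ I
      (nonZeroDivisors.coe_ne_zero I)
    exact ⟨I, α, β, Q, hI, hQ, h⟩
  choose I α β Q hI hQ hOB using hex
  exact ⟨⟨σ, I, α, β, Q, hI, hQ, hOB⟩, rfl⟩

end Pool.Agent.H85.FC
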