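import Pool.Agent.H95.FC.Targets

/-!
# MP_52e316_nt, board `fmx_modules`, row ASPL: colours which separate the elements of the classes
-/

set_option autoImplicit false

open MeasureTheory Set Filter NumberField
open Pool.Agent.H31.CN Pool.Agent.H89.FM Pool.Agent.H61.FM Pool.Agent.H89.FC Pool.Agent.H95.FC
open scoped Real nonZeroDivisors Matrix MatrixGroups

namespace Pool.Agent.H85.FC

theorem pf_SPL : Pool.Agent.H95.FC.T_SPL := by
  classical
  intro Ω _ r N hr hN
  let S : Setoid Ω := ⟨r, hr⟩
  have hinj : ∀ q : Quotient S, ∃ g : {ω // Quotient.mk S ω = q} → Fin N,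
      Function.Injective g := by
    intro q
    obtain ⟨ω₀, rfl⟩ := Quotient.exists_rep q
    have hset : {ω | Quotient.mk S ω = Quotient.mk S ω₀} = {ω' | r ω₀ ω'} := by
      ext ω
      constructor
      · intro h
        exact hr.symm (Quotient.exact h)
      · intro h
        exact Quotient.sound (hr.symm h)
    have hcard : Nat.card {ω // Quotient.mk S ω = Quotient.mk S ω₀} ≤ N := by
      have h1 : {ω | Quotient.mk S ω = Quotient.mk S ω₀}.ncard ≤ N := by
        rw [hset]
        exact hN ω₀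
      exact h1
    refine ⟨fun x => Fin.castLE hcard (Finite.equivFin _ x), fun x y hxy => ?_⟩
    exact (Finite.equivFin _).injective (Fin.castLE_injective hcard hxy)
  choose g hg using hinj
  refine ⟨fun ω => g (Quotient.mk S ω) ⟨ω, rfl⟩, fun ω ω' h he => ?_⟩
  have hq : Quotient.mk S ω' = Quotient.mk S ω := Quotient.sound (hr.symm h)
  have h2 : g (Quotient.mk S ω') ⟨ω', rfl⟩ = g (Quotient.mk S ω) ⟨ω', hq⟩ := by
    have h3 : ∀ q (hh : Quotient.mk S ω' = q),
        g (Quotient.mk S ω') ⟨ω', rfl⟩ = g q ⟨ω', hh⟩ := by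
      rintro _ rfl
      rfl
    exact h3 _ hq
  have h4 : g (Quotient.mk S ω) ⟨ω, rfl⟩ = g (Quotient.mk S ω') ⟨ω', rfl⟩ := he
  rw [h2] at h4
  exact congrArg Subtype.val (hg _ h4)

end Pool.Agent.H85.FC
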