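import Pool.Agent.H9.FC.TB

/-! Module CCC: the countable chain condition. -/

namespace Pool.Agent.H85.FC.CCC

open Set Pool.Agent.H9.FC

variable {Ω : Type} [LinearOrder Ω] [WellFoundedLT Ω]

/-- conditions in normal form: `F` is the support, `g` gives the stems and the classes -/
inductive Good (p : Par) : Ω → Set (Pt Ω) → Finset Ω → (Ω → List (Finset ℕ) × ℕ) → Prop
  | top (γ : Ω) (g : Ω → List (Finset ℕ) × ℕ) : Good p γ univ ∅ g
  | step (γ δ : Ω) (U : Set (Pt Ω)) (F : Finset Ω) (g : Ω → List (Finset ℕ) × ℕ) (s : List (Finset ℕ)) (l : ℕ)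
      (φ : Pt Ω → ℕ → Finset ℕ) (hδ : δ < γ) (hU : Good p δ U F g) (hs : StemOK p s) (hl : l + 3 ≤ s.length)
      (hφ : IsName p (PP p δ) δ l φ) (hg : g δ = (s, l)) :
      Good p γ (U ∩ atom δ s φ) (insert δ F) g

variable {p : Par}

lemma Good.mem {γ : Ω} {U : Set (Pt Ω)} {F : Finset Ω} {g : Ω → List (Finset ℕ) × ℕ} (h : Good p γ U F g) :
    U ∈ PP p γ ∧ ∀ δ ∈ F, δ < γ := by
  induction h with
  | top γ g => exact ⟨(mem_PP p γ _).2 (Or.inl rfl), by simp⟩
  | step γ δ U F g s l φ hδ hU hs hl hφ hg ih =>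
    refine ⟨(mem_PP p γ _).2 (Or.inr ⟨δ, hδ, U, ih.1, s, l, φ, hs, by omega, hφ, rfl⟩), ?_⟩
    intro x hx
    rw [Finset.mem_insert] at hx
    rcases hx with rfl | hx
    · exact hδ
    · exact (ih.2 x hx).trans hδ

lemma Good.congr {γ : Ω} {U : Set (Pt Ω)} {F : Finset Ω} {g : Ω → List (Finset ℕ) × ℕ} (h : Good p γ U F g)
    (g' : Ω → List (Finset ℕ) × ℕ) (hg : ∀ x ∈ F, g' x = g x) : Good p γ U F g' := by
  induction h with
  | top γ g => exact Good.top γ g'
  | step γ δ U F g s l φ hδ hU hs hl hφ hgδ ih =>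
    refine Good.step γ δ U F g' s l φ hδ (ih fun x hx => hg x (Finset.mem_insert_of_mem hx)) hs hl hφ ?_
    rw [hg δ (Finset.mem_insert_self _ _), hgδ]

/-- density of the normal forms -/
lemma dense (hBAS : T_BAS) (hDCF : T_DCF) (p : Par) : ∀ (γ : Ω) (U : Set (Pt Ω)), U ∈ PP p γ →
    ∃ U' F g, U' ⊆ U ∧ Good p γ U' F g := by
  intro γ
  induction γ using WellFoundedLT.induction with
  | ind γ ih =>
  intro U hU
  rcases (mem_PP p γ U).1 hU with rfl | ⟨δ, hδ, U₀, hU₀, s, l, φ, hs, hl, hφ, rfl⟩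
  · exact ⟨univ, ∅, fun _ => ([], 0), Subset.rfl, Good.top _ _⟩
  · set N := max s.length (l + 3) with hN
    obtain ⟨V, hV, hVU, hVd⟩ := hDCF p Ω δ (Finset ℕ) φ N U₀ hφ.2.2 hU₀
    choose! c hc using hVd
    obtain ⟨V', F, g, hV'V, hgood⟩ := ih δ hδ V hV
    have hV'mem := hgood.mem
    obtain ⟨x₀, hx₀⟩ := (hBAS p Ω).2.2.2.1 δ V hV
    set s' : List (Finset ℕ) := (List.range N).map (fun i => if i < s.length then s.getD i ∅ else c i) with hs'
    have hlen : s'.length = N := by simp [hs']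
    have hget : ∀ i < N, s'.getD i ∅ = if i < s.length then s.getD i ∅ else c i := by
      intro i hi
      rw [List.getD_eq_getElem _ _ (by rw [hlen]; exact hi)]
      simp only [hs', List.getElem_map, List.getElem_range]
    have hstem : StemOK p s' := by
      intro i hi
      rw [hlen] at hi
      rw [hget i hi]
      by_cases h : i < s.length
      · rw [if_pos h]
        exact hs i h
      · rw [if_neg h, ← hc i hi x₀ hx₀]
        have h1 := hφ.1 x₀ i
        have h2 := p.w_le l i (by omega)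
        exact ⟨h1.1, by omega⟩
    have hgood' : Good p δ V' F (Function.update g δ (s', l)) := by
      refine hgood.congr _ fun x hx => ?_
      rw [Function.update_of_ne (hV'mem.2 x hx).ne]
    refine ⟨V' ∩ atom δ s' φ, insert δ F, Function.update g δ (s', l), ?_,
      Good.step γ δ V' F _ s' l φ hδ hgood' hstem (by rw [hlen]; exact le_max_right _ _) hφ (by simp)⟩
    rintro x ⟨hx1, hx2, hx3⟩
    have hxV := hV'V hx1
    refine ⟨hVU hxV, ?_, ?_⟩
    · intro i hi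
      have hiN : i < N := lt_of_lt_of_le hi (le_max_left _ _)
      rw [hx2 i (by rw [hlen]; exact hiN), hget i hiN, if_pos hi]
    · intro i hi
      rcases lt_or_ge i N with h | h
      · rw [hx2 i (by rw [hlen]; exact h), hget i h, if_neg (by omega), hc i h x hxV]
      · exact hx3 i (by rw [hlen]; exact h)

/-- the union of two names -/
lemma isName_union {γ : Ω} {l : ℕ} {φ φ' : Pt Ω → ℕ → Finset ℕ} (h : IsName p (PP p γ) γ l φ)
    (h' : IsName p (PP p γ) γ l φ') : IsName p (PP p γ) γ (l + 1) (fun x i => φ x i ∪ φ' x i) := by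
  refine ⟨fun x i => ⟨Finset.union_subset (h.1 x i).1 (h'.1 x i).1, ?_⟩, ?_, ?_⟩
  · have h1 := Finset.card_union_le (φ x i) (φ' x i)
    have h2 := (h.1 x i).2
    have h3 := (h'.1 x i).2
    have h4 := p.w_succ l i
    show (φ x i ∪ φ' x i).card ≤ p.w (l + 1) i
    omega
  · intro x x' hx
    funext i
    show φ x i ∪ φ' x i = φ x' i ∪ φ' x' i
    rw [h.2.1 x x' hx, h'.2.1 x x' hx]
  · intro i U hU
    obtain ⟨V, hV, hVU, c, hc⟩ := h.2.2 i U hU
    obtain ⟨V', hV', hVV', c', hc'⟩ := h'.2.2 i V hV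
    refine ⟨V', hV', hVV'.trans hVU, c ∪ c', fun x hx => ?_⟩
    show φ x i ∪ φ' x i = c ∪ c'
    rw [← hc x (hVV' hx), ← hc' x hx]

/-- amalgamation of normal forms -/
lemma merge (p : Par) : ∀ (γ : Ω) (U U' : Set (Pt Ω)) (F F' : Finset Ω) (g g' : Ω → List (Finset ℕ) × ℕ),
    Good p γ U F g → Good p γ U' F' g' → (∀ x ∈ F, x ∈ F' → g x = g' x) →
    ∃ R ∈ PP p γ, R ⊆ U ∧ R ⊆ U' := by
  intro γ
  induction γ using WellFoundedLT.induction with
  | ind γ ih =>
  intro U U' F F' g g' hU hU' hag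
  have hmem := hU.mem
  have hmem' := hU'.mem
  cases hU with
  | top => exact ⟨U', hmem'.1, subset_univ _, Subset.rfl⟩
  | step _ δ U₀ F₀ _ s l φ hδ hU₀ hs hl hφ hg =>
    cases hU' with
    | top => exact ⟨_, hmem.1, Subset.rfl, subset_univ _⟩
    | step _ δ' U₀' F₀' _ s' l' φ' hδ' hU₀' hs' hl' hφ' hg' =>
      rcases lt_trichotomy δ δ' with h | h | h
      · -- `δ < δ'`
        obtain ⟨R, hR, hR1, hR2⟩ := ih δ' hδ' _ _ _ _ _ _
          (Good.step δ' δ U₀ F₀ g s l φ h hU₀ hs hl hφ hg) hU₀'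
          (fun x hx hx' => hag x hx (Finset.mem_insert_of_mem hx'))
        refine ⟨R ∩ atom δ' s' φ', (mem_PP p γ _).2 (Or.inr ⟨δ', hδ', R, hR, s', l', φ', hs', by omega, hφ', rfl⟩),
          fun x hx => hR1 hx.1, fun x hx => ⟨hR2 hx.1, hx.2⟩⟩
      · subst h
        have hgg := hag δ (Finset.mem_insert_self _ _) (Finset.mem_insert_self _ _)
        rw [hg, hg', Prod.mk.injEq] at hgg
        obtain ⟨rfl, rfl⟩ := hgg
        obtain ⟨R, hR, hR1, hR2⟩ := ih δ hδ _ _ _ _ _ _ hU₀ hU₀'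
          (fun x hx hx' => hag x (Finset.mem_insert_of_mem hx) (Finset.mem_insert_of_mem hx'))
        refine ⟨R ∩ atom δ s (fun x i => φ x i ∪ φ' x i),
          (mem_PP p γ _).2 (Or.inr ⟨δ, hδ, R, hR, s, l + 1, _, hs, by omega, isName_union hφ hφ', rfl⟩), ?_, ?_⟩
        · rintro x ⟨hx1, hx2, hx3⟩
          exact ⟨hR1 hx1, hx2, fun i hi => Finset.subset_union_left.trans (hx3 i hi)⟩
        · rintro x ⟨hx1, hx2, hx3⟩
          exact ⟨hR2 hx1, hx2, fun i hi => Finset.subset_union_right.trans (hx3 i hi)⟩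
      · -- `δ' < δ`
        obtain ⟨R, hR, hR1, hR2⟩ := ih δ hδ _ _ _ _ _ _ hU₀
          (Good.step δ δ' U₀' F₀' g' s' l' φ' h hU₀' hs' hl' hφ' hg')
          (fun x hx hx' => hag x (Finset.mem_insert_of_mem hx) hx')
        refine ⟨R ∩ atom δ s φ, (mem_PP p γ _).2 (Or.inr ⟨δ, hδ, R, hR, s, l, φ, hs, by omega, hφ, rfl⟩),
          fun x hx => ⟨hR1 hx.1, hx.2⟩, fun x hx => hR2 hx.1⟩

/-- **CCC.** The countable chain condition. -/
theorem pf_CCC (hBAS : T_BAS) (hDCF : T_DCF) (hDEL : T_DEL) : T_CCC := by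
  intro p Ω _ _ γ A hA hinc
  by_contra hcount
  have hunc : Uncountable ↥A := by
    rw [← not_countable_iff, Set.countable_coe_iff]
    exact hcount
  have hch : ∀ U : ↥A, ∃ U' F g, U' ⊆ U.1 ∧ Good p γ U' F g := fun U => dense hBAS hDCF p γ U.1 (hA U.2)
  choose U' F g hsub hgood using hch
  obtain ⟨i, j, hij, hag⟩ := hDEL Ω (List (Finset ℕ) × ℕ) ↥A F g
  obtain ⟨R, hR, hR1, hR2⟩ := merge p γ _ _ _ _ _ _ (hgood i) (hgood j) hag
  exact hinc i.1 i.2 j.1 j.2 (fun h => hij (Subtype.ext h)) ⟨R, hR, hR1.trans (hsub i), hR2.trans (hsub j)⟩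

end Pool.Agent.H85.FC.CCC
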