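import Pool.Agent.H23.FC.Targets

/-!
# MP_52e316_nt, board `fmx_modules`, row KPB: bound of the test function near the ray
-/

set_option autoImplicit false

open MeasureTheory Set Filter
open Pool.Agent.H31.CN Pool.Agent.H89.FM Pool.Agent.H89.FC Pool.Agent.H23.FC
open scoped Real Topology

namespace Pool.Agent.H85.FC

theorem kpb_norm (m : ℕ) (w : ℂ) : ‖phm m w‖ ≤
    (((m : ℝ) + 2 * π * ‖w‖) ^ 2 + m + 4 * π * ‖w‖) * ‖w‖ ^ m *
      Real.exp (-(2 * π * w.re)) := by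
  unfold phm
  rw [norm_mul, norm_mul, norm_pow, Complex.norm_exp]
  have h1 : (-(2 * (π : ℂ) * w)).re = -(2 * π * w.re) := by
    simp
  rw [h1]
  refine mul_le_mul_of_nonneg_right (mul_le_mul_of_nonneg_right ?_ (by positivity))
    (Real.exp_pos _).le
  have h2 : ‖(m : ℂ) - 2 * π * w‖ ≤ m + 2 * π * ‖w‖ := by
    refine (norm_sub_le _ _).trans (le_of_eq ?_)
    simp [abs_of_pos Real.pi_pos]
  have h3 : ‖4 * (π : ℂ) * w‖ = 4 * π * ‖w‖ := by simp [abs_of_pos Real.pi_pos]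
  have h4 : ‖(m : ℂ)‖ = m := by simp
  calc ‖((m : ℂ) - 2 * π * w) ^ 2 + m - 4 * π * w‖
      ≤ ‖((m : ℂ) - 2 * π * w) ^ 2 + m‖ + ‖4 * (π : ℂ) * w‖ := norm_sub_le _ _
    _ ≤ ‖((m : ℂ) - 2 * π * w) ^ 2‖ + ‖(m : ℂ)‖ + ‖4 * (π : ℂ) * w‖ := by
        gcongr
        exact norm_add_le _ _
    _ ≤ _ := by
        rw [norm_pow, h3, h4]
        gcongr

theorem kpb_exp (m i : ℕ) (hi : i ≤ m + 3) (X : ℝ) (hX : 0 ≤ X) :
    X ^ i * Real.exp (-((1 - 1 / (2 * ((m : ℝ) + 1))) * X)) ≤ 27 * i.factorial := by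
  set l : ℝ := 1 - 1 / (2 * ((m : ℝ) + 1)) with hl
  have hm : (0 : ℝ) ≤ m := Nat.cast_nonneg m
  have hlp : 0 < l := by
    have : 1 / (2 * ((m : ℝ) + 1)) ≤ 1 / 2 := by
      apply one_div_le_one_div_of_le <;> linarith
    rw [hl]
    linarith
  have h1 : (l * X) ^ i / i.factorial ≤ Real.exp (l * X) :=
    Real.pow_div_factorial_le_exp _ (by positivity) i
  have h2 : (1 / l) ^ i ≤ 27 := by
    have h3 : 1 / l = 1 + 1 / (2 * (m : ℝ) + 1) := by
      have e1 : l = (2 * (m : ℝ) + 1) / (2 * ((m : ℝ) + 1)) := by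
        rw [hl]
        field_simp
        ring
      rw [e1, one_div_div]
      field_simp
      ring
    have h4 : 1 + 1 / (2 * (m : ℝ) + 1) ≤ Real.exp (1 / (2 * (m : ℝ) + 1)) := by
      have := Real.add_one_le_exp (1 / (2 * (m : ℝ) + 1))
      linarith
    calc (1 / l) ^ i ≤ (Real.exp (1 / (2 * (m : ℝ) + 1))) ^ i := by
          apply pow_le_pow_left₀ (by positivity)
          rw [h3]
          exact h4
      _ = Real.exp (i * (1 / (2 * (m : ℝ) + 1))) := by rw [← Real.exp_nat_mul]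
      _ ≤ Real.exp 3 := by
          apply Real.exp_le_exp.2
          rw [mul_one_div, div_le_iff₀ (by positivity)]
          have : (i : ℝ) ≤ m + 3 := by exact_mod_cast hi
          linarith
      _ ≤ 27 := by
          have h5 : Real.exp 1 ≤ 3 := by
            have := Real.exp_one_lt_d9
            linarith
          have h6 : Real.exp 3 = Real.exp 1 ^ 3 := by
            rw [← Real.exp_nat_mul]
            norm_num
          rw [h6]
          calc Real.exp 1 ^ 3 ≤ 3 ^ 3 := by gcongr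
            _ = 27 := by norm_num
  have h7 : X ^ i = (1 / l) ^ i * (l * X) ^ i := by
    rw [← mul_pow]
    congr 1
    field_simp
  have hf : (0 : ℝ) < i.factorial := by exact_mod_cast Nat.factorial_pos i
  rw [div_le_iff₀ hf] at h1
  have he := Real.exp_pos (l * X)
  rw [h7, Real.exp_neg, ← div_eq_mul_inv, div_le_iff₀ he]
  calc (1 / l) ^ i * (l * X) ^ i ≤ 27 * (Real.exp (l * X) * i.factorial) := by
        apply mul_le_mul h2 h1 (by positivity) (by norm_num)
    _ = _ := by ring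

theorem kpb_X (m : ℕ) (T X : ℝ) (hT : (m : ℝ) + 1 ≤ T) (hX : 0 ≤ X) :
    (1 + X) ^ 3 * X ^ (m - 1) * Real.exp (-((1 - 1 / (2 * ((m : ℝ) + 1))) * X)) ≤
      3024 * T ^ 3 * m.factorial := by
  set E := Real.exp (-((1 - 1 / (2 * ((m : ℝ) + 1))) * X)) with hE
  have hm : (0 : ℝ) ≤ m := Nat.cast_nonneg m
  have hEp : 0 < E := Real.exp_pos _
  have a1 : X ^ (m - 1) * E ≤ 27 * (m - 1).factorial := kpb_exp m (m - 1) (by omega) X hX
  have a2 : X ^ (m - 1 + 3) * E ≤ 27 * (m - 1 + 3).factorial :=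
    kpb_exp m (m - 1 + 3) (by omega) X hX
  have b1 : ((m - 1).factorial : ℝ) ≤ m.factorial := by
    exact_mod_cast Nat.factorial_le (by omega)
  have b2 : ((m - 1 + 3).factorial : ℝ) ≤ 27 * T ^ 3 * m.factorial := by
    have c1 : (m - 1 + 3).factorial ≤ (m + 3).factorial := Nat.factorial_le (by omega)
    have c2 : ((m + 3).factorial : ℝ) = ((m : ℝ) + 3) * (m + 2) * (m + 1) * m.factorial := by
      rw [Nat.factorial_succ, Nat.factorial_succ, Nat.factorial_succ]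
      push_cast
      ring
    have hT0 : 0 < T := by linarith
    have d1 : (m : ℝ) + 3 ≤ 3 * T := by linarith
    have d2 : (m : ℝ) + 2 ≤ 3 * T := by linarith
    have d3 : (m : ℝ) + 1 ≤ 3 * T := by linarith
    calc ((m - 1 + 3).factorial : ℝ) ≤ (m + 3).factorial := by exact_mod_cast c1
      _ = ((m : ℝ) + 3) * (m + 2) * (m + 1) * m.factorial := c2
      _ ≤ (3 * T) * (3 * T) * (3 * T) * m.factorial := by gcongr
      _ = 27 * T ^ 3 * m.factorial := by ring
  have c3 : (1 + X) ^ 3 ≤ 4 * (1 + X ^ 3) := by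
    nlinarith [mul_nonneg (sq_nonneg (1 - X)) (by linarith : (0 : ℝ) ≤ 1 + X)]
  have hT1 : 1 ≤ T ^ 3 := one_le_pow₀ (by linarith)
  have hf : (0 : ℝ) < m.factorial := by exact_mod_cast Nat.factorial_pos m
  calc (1 + X) ^ 3 * X ^ (m - 1) * E ≤ 4 * (1 + X ^ 3) * X ^ (m - 1) * E := by gcongr
    _ = 4 * (X ^ (m - 1) * E + X ^ (m - 1 + 3) * E) := by ring
    _ ≤ 4 * (27 * (m - 1).factorial + 27 * (m - 1 + 3).factorial) := by gcongr
    _ ≤ 4 * (27 * m.factorial + 27 * (27 * T ^ 3 * m.factorial)) := by gcongr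
    _ ≤ 3024 * T ^ 3 * m.factorial := by nlinarith

theorem kpb_P (m : ℕ) (T W X N : ℝ) (hT : (m : ℝ) + 1 ≤ T) (hW : 0 < W) (hX : 0 < X)
    (hXW : X ≤ 13 / 2 * W) (hN : N ≤ 11 / 10 * W) (hN0 : 0 ≤ N) :
    (((m : ℝ) + 2 * π * N) ^ 2 + m + 4 * π * N) * X ^ m ≤
      1000 * T ^ 2 * (1 + W) ^ 2 * W * X ^ (m - 1) := by
  have hm : (0 : ℝ) ≤ m := Nat.cast_nonneg m
  have hπ : π ≤ 16 / 5 := by
    have := Real.pi_lt_d2
    linarith
  have hπ0 : 0 < π := Real.pi_pos
  have hp : π * N ≤ 88 / 25 * W := by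
    calc π * N ≤ 16 / 5 * (11 / 10 * W) := by gcongr
      _ = 88 / 25 * W := by ring
  have hp0 : 0 ≤ π * N := by positivity
  have hT1 : 1 ≤ T := by linarith
  rcases Nat.eq_zero_or_pos m with rfl | hmp
  · simp only [Nat.cast_zero, zero_add, pow_zero, mul_one, Nat.zero_sub, add_zero]
    have h1 : (2 * π * N) ^ 2 + 4 * π * N ≤ 60 * (1 + W) * W := by nlinarith
    have h2 : 1 ≤ T ^ 2 := one_le_pow₀ hT1
    calc (2 * π * N) ^ 2 + 4 * π * N ≤ 60 * (1 + W) * W := h1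
      _ ≤ 1000 * 1 * (1 + W) ^ 2 * W := by nlinarith [mul_pos hW hW]
      _ ≤ 1000 * T ^ 2 * (1 + W) ^ 2 * W := by gcongr
  · have h1 : ((m : ℝ) + 2 * π * N) ^ 2 + m + 4 * π * N ≤ 100 * T ^ 2 * (1 + W) ^ 2 := by
      have a1 : (m : ℝ) + 2 * π * N ≤ 8 * (T * (1 + W)) := by nlinarith
      have a0 : (0 : ℝ) ≤ (m : ℝ) + 2 * π * N := by positivity
      have a2 : ((m : ℝ) + 2 * π * N) ^ 2 ≤ (8 * (T * (1 + W))) ^ 2 := by gcongr
      have a3 : (m : ℝ) + 4 * π * N ≤ 15 * (T * (1 + W)) := by nlinarith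
      have a4 : 1 ≤ T * (1 + W) := by nlinarith
      nlinarith
    have h2 : X ^ m = X * X ^ (m - 1) := by
      rw [← pow_succ']
      congr 1
      omega
    rw [h2]
    calc (((m : ℝ) + 2 * π * N) ^ 2 + m + 4 * π * N) * (X * X ^ (m - 1))
        ≤ (100 * T ^ 2 * (1 + W) ^ 2) * ((13 / 2 * W) * X ^ (m - 1)) := by gcongr
      _ = 650 * T ^ 2 * (1 + W) ^ 2 * W * X ^ (m - 1) := by ring
      _ ≤ 1000 * T ^ 2 * (1 + W) ^ 2 * W * X ^ (m - 1) := by gcongr; norm_num

theorem pf_PHB : Pool.Agent.H23.FC.T_PHB := by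
  refine ⟨6048000, 8, by norm_num, fun m t W w hW h1 h2 => ?_⟩
  have hm : (0 : ℝ) ≤ m := Nat.cast_nonneg m
  have hm1 : (0 : ℝ) < m + 1 := by positivity
  have hta : 0 ≤ |t| := abs_nonneg t
  unfold cB
  set T : ℝ := 1 + |t| + m with hT
  set ρ : ℝ := Real.sqrt (((m : ℝ) + 1) ^ 2 + t ^ 2) with hρ
  have hTp : 0 < T := by positivity
  have hT1 : 1 ≤ T := by linarith
  have hρ1 : (m : ℝ) + 1 ≤ ρ := Real.le_sqrt_of_sq_le (by nlinarith [sq_nonneg t])
  have hρ0 : 0 < ρ := by linarith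
  have hρ2 : ρ ≤ T := by
    rw [hρ]
    refine Real.sqrt_le_iff.2 ⟨hTp.le, ?_⟩
    rw [← sq_abs t, hT]
    nlinarith
  set R : ℝ := ρ / (m + 1) with hR
  have hR1 : 1 ≤ R := by
    rw [hR, le_div_iff₀ hm1]
    linarith
  have hR0 : 0 < R := by linarith
  have hRT : R ≤ T := (div_le_self hρ0.le (by linarith)).trans hρ2
  have hRT' : R * (m + 1) ≤ T := by
    rw [hR, div_mul_cancel₀ _ hm1.ne']
    exact hρ2
  have hπ0 : 0 < π := Real.pi_pos
  have hπ3 : 3 < π := Real.pi_gt_three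
  have hπ4 : π ≤ 16 / 5 := by
    have := Real.pi_lt_d2
    linarith
  set X : ℝ := 2 * π * W / R with hX
  have hXp : 0 < X := by positivity
  have hXR : X * R = 2 * π * W := by
    rw [hX]
    field_simp
  have hXW : X ≤ 13 / 2 * W := by
    calc X ≤ 2 * π * W := div_le_self (by positivity) hR1
      _ ≤ 2 * (16 / 5) * W := by gcongr
      _ ≤ 13 / 2 * W := by nlinarith
  have hWX : W = R / (2 * π) * X := by
    field_simp
    linarith
  have hWT : W ≤ T * X := by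
    calc W = R / (2 * π) * X := hWX
      _ ≤ T * X := by
        gcongr
        exact (div_le_self hR0.le (by linarith)).trans hRT
  -- the exponential factor
  set a : ℝ := 1 - 1 / (10 * ((m : ℝ) + 1)) with ha
  set l : ℝ := 1 - 1 / (2 * ((m : ℝ) + 1)) with hl
  have hre : a * X ≤ 2 * π * w.re := by
    have e1 : a * X = 2 * π * (W * ((m + 1) / ρ) * a) := by
      rw [hX, hR]
      field_simp
    rw [e1]
    gcongr
  have h2W : 2 * W / T ≤ 2 / 5 * (X / (m + 1)) := by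
    have e1 : 2 * W ≤ 2 / 5 * (X * R) := by
      rw [hXR]
      nlinarith
    have e2 : R ≤ T / (m + 1) := by
      rw [le_div_iff₀ hm1]
      exact hRT'
    rw [div_le_iff₀ hTp]
    calc 2 * W ≤ 2 / 5 * (X * R) := e1
      _ ≤ 2 / 5 * (X * (T / (m + 1))) := by gcongr
      _ = 2 / 5 * (X / (m + 1)) * T := by ring
  have hla : l * X + 2 * W / T ≤ a * X := by
    have e1 : a * X = l * X + 2 / 5 * (X / (m + 1)) := by
      rw [ha, hl]
      field_simp
      ring
    rw [e1]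
    linarith
  have hexp : Real.exp (-(2 * π * w.re)) ≤ Real.exp (-(l * X)) * Real.exp (-(2 * W / T)) := by
    rw [← Real.exp_add]
    apply Real.exp_le_exp.2
    linarith
  -- the power
  have hN1 : ‖w‖ ≤ 11 / 10 * W := by
    refine h1.trans ?_
    have e1 : 1 / (10 * T) ≤ 1 / 10 := by
      apply one_div_le_one_div_of_le <;> linarith
    nlinarith
  have hNm : ‖w‖ ^ m ≤ 2 * W ^ m := by
    have e0 : (1 + 1 / (10 * T)) ^ m ≤ 2 := by
      calc (1 + 1 / (10 * T)) ^ m ≤ (Real.exp (1 / (10 * T))) ^ m := by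
            apply pow_le_pow_left₀ (by positivity)
            have := Real.add_one_le_exp (1 / (10 * T))
            linarith
        _ = Real.exp (m * (1 / (10 * T))) := by rw [← Real.exp_nat_mul]
        _ ≤ Real.exp (1 / 10) := by
            apply Real.exp_le_exp.2
            rw [mul_one_div, div_le_iff₀ (by positivity)]
            linarith
        _ ≤ 2 := by
            have e5 : Real.exp 1 ≤ 2 ^ 10 := by
              have := Real.exp_one_lt_d9
              linarith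
            have e6 : Real.exp 1 = Real.exp (1 / 10) ^ 10 := by
              rw [← Real.exp_nat_mul]
              norm_num
            rw [e6] at e5
            exact le_of_pow_le_pow_left₀ (by norm_num) (by norm_num) e5
    calc ‖w‖ ^ m ≤ (W * (1 + 1 / (10 * T))) ^ m := by gcongr
      _ = W ^ m * (1 + 1 / (10 * T)) ^ m := mul_pow _ _ _
      _ ≤ W ^ m * 2 := by gcongr
      _ = 2 * W ^ m := by ring
  have hWm : W ^ m = (R / (2 * π)) ^ m * X ^ m := by
    rw [← mul_pow, ← hWX]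
  have hN := kpb_norm m w
  set P : ℝ := ((m : ℝ) + 2 * π * ‖w‖) ^ 2 + m + 4 * π * ‖w‖ with hP
  have hP0 : 0 ≤ P := by positivity
  have hPX : P * X ^ m ≤ 1000 * T ^ 2 * (1 + W) ^ 2 * W * X ^ (m - 1) :=
    kpb_P m T W X ‖w‖ (by linarith) hW hXp hXW hN1 (norm_nonneg _)
  have h6 : (1 + W) ^ 3 ≤ T ^ 3 * (1 + X) ^ 3 := by
    rw [← mul_pow]
    gcongr
    nlinarith
  have h8 := kpb_X m T X (by linarith) hXp.le
  rw [← hl] at h8
  set El : ℝ := Real.exp (-(l * X)) with hEl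
  set EW : ℝ := Real.exp (-(2 * W / T)) with hEW
  have hEl0 : 0 < El := Real.exp_pos _
  have hEW0 : 0 < EW := Real.exp_pos _
  have hq0 : 0 < R / (2 * π) := by positivity
  have hf : (0 : ℝ) < m.factorial := by exact_mod_cast Nat.factorial_pos m
  calc ‖phm m w‖ * (1 + W) ≤ (P * ‖w‖ ^ m * Real.exp (-(2 * π * w.re))) * (1 + W) := by gcongr
    _ ≤ (P * (2 * W ^ m) * (El * EW)) * (1 + W) := by gcongr
    _ = 2 * (R / (2 * π)) ^ m * (P * X ^ m) * (1 + W) * El * EW := by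
        rw [hWm]
        ring
    _ ≤ 2 * (R / (2 * π)) ^ m * (1000 * T ^ 2 * (1 + W) ^ 2 * W * X ^ (m - 1)) * (1 + W) *
          El * EW := by gcongr
    _ = 2000 * (R / (2 * π)) ^ m * T ^ 2 * W * EW * ((1 + W) ^ 3 * X ^ (m - 1) * El) := by ring
    _ ≤ 2000 * (R / (2 * π)) ^ m * T ^ 2 * W * EW *
          ((T ^ 3 * (1 + X) ^ 3) * X ^ (m - 1) * El) := by gcongr
    _ = 2000 * (R / (2 * π)) ^ m * T ^ 2 * W * EW *
          (T ^ 3 * ((1 + X) ^ 3 * X ^ (m - 1) * El)) := by ring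
    _ ≤ 2000 * (R / (2 * π)) ^ m * T ^ 2 * W * EW *
          (T ^ 3 * (3024 * T ^ 3 * m.factorial)) := by gcongr
    _ = 6048000 * T ^ 8 * (m.factorial / (2 * π) ^ m * R ^ m) * W * EW := by
        rw [div_pow]
        ring
    _ ≤ 6048000 * T ^ 8 * (m.factorial / (2 * π) ^ m * R ^ (m + 1)) * W * EW := by
        gcongr
        exact Nat.le_succ m

end Pool.Agent.H85.FC
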